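import Pool.Agent.Run7.h647.PD.Zd

/-!
# Percolation clusters: the ends of the diameters

Bond percolation on `ℤ^d`, every `d`, every `0 < p < 1` (the critical parameter included). The ends
of the diameters of the cluster, for the `ℓ^q` distances and other distances.

Proof. Let `v` be an end of a diameter, `u` the other end. Open the edge from `v` to a neighbour `w`
which is farther from `u`, and close the other edges of `w`. This can be done at the same time at all
the ends of diameters for which `w` is in a fixed direction from `v`. The old cluster is recovered: a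
diameter of the new cluster has a new end (two choices), which gives one of the points `v`; the old
diameter is the largest distance of `v` from the points of the new cluster which are not above `v`;
and a point of the new cluster is new if and only if there is a point which is not above it and whose
distance from it is larger than the old diameter.
-/

set_option autoImplicit false
set_option linter.deprecated false

namespace Pool.Agent.Results.MP_54f242_pr.DiametralPoints

open scoped ENNReal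
open MeasureTheory

/-- `v` and `w` are nearest neighbours in `ℤ^d` -/
def Nb {d : ℕ} (v w : Fin d → ℤ) : Prop := ∑ i, |w i - v i| = 1

/-- Bernoulli bond percolation with parameter `p`: independent states of the pairs of points; the
bonds are the pairs of nearest neighbours, the states of the other pairs are not used -/
noncomputable def Perc (d : ℕ) (p : NNReal) (hp : p ≤ 1) : Measure (Sym2 (Fin d → ℤ) → Bool) :=
  Measure.infinitePi (fun _ : Sym2 (Fin d → ℤ) => (PMF.bernoulli p hp).toMeasure)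

/-- the open cluster of `0` -/
def cluster {d : ℕ} (ω : Sym2 (Fin d → ℤ) → Bool) : Set (Fin d → ℤ) :=
  {x | Relation.ReflTransGen (fun v w => Nb v w ∧ ω s(v, w) = true) 0 x}

/-- the event that the cluster of `0` is finite and has the property `Φ` -/
def Fin' {d : ℕ} (Φ : Set (Fin d → ℤ) → Prop) : Set (Sym2 (Fin d → ℤ) → Bool) :=
  {ω | (cluster ω).Finite ∧ Φ (cluster ω)}

/-- increasing properties -/
def Incr {d : ℕ} (Φ : Set (Fin d → ℤ) → Prop) : Prop := ∀ A B, A ⊆ B → Φ A → Φ B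

/-- `F v` is a nondecreasing function of `|v_1|, …, |v_d|`, and every point has a neighbour with
larger coordinates in absolute value, at which `F` is larger. For instance the `ℓ^q` norms,
`1 ≤ q ≤ ∞`. -/
def DistLike {d : ℕ} (F : (Fin d → ℤ) → ℝ) : Prop :=
  (∀ x y : Fin d → ℤ, (∀ j, |x j| ≤ |y j|) → F x ≤ F y) ∧
    ∀ x, ∃ y, Nb x y ∧ (∀ j, |x j| ≤ |y j|) ∧ F x < F y

/-- the ends of the diameters of `C` for the distance `F (v - u)` -/
def ends {d : ℕ} (F : (Fin d → ℤ) → ℝ) (C : Set (Fin d → ℤ)) : Set (Fin d → ℤ) :=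
  {v | v ∈ C ∧ ∃ u ∈ C, ∀ a ∈ C, ∀ b ∈ C, F (a - b) ≤ F (v - u)}

/-- the constant -/
noncomputable def K (d : ℕ) (p : NNReal) : ℝ := 30 * (d : ℝ) ^ 2 / ((p : ℝ) * (1 - p) ^ (2 * d))

/-- **Ends of the diameters of percolation clusters.** Bond percolation on `ℤ^d`, `0 < p < 1`,
`K = 30 d² / (p (1 - p)^(2 d))`, `C` the cluster of `0`, and a distance `F (v - u)` on `ℤ^d`.

1. Let `Φ` be any increasing property of the cluster. Given that `C` is finite and has the property
`Φ`, the number of the ends of the diameters of `C` is larger than `K (1 + x)` with probability at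
most `exp (-x)`; and `P (C finite, Φ C)` is comparable to the sum over `x` of the probabilities that
`C` is finite, `0` is an end of a diameter of `C`, `x ∈ C` and `C - x` has the property `Φ`.

2. In particular the truncated two-point function `P (z ∈ C, C finite)` is comparable to the sum over
`x` of `P (x ∈ C, x + z ∈ C, C finite, 0 is an end of a diameter of C)`.

3. `P (n ≤ |C| < ∞)` is comparable to the mean of `|C|` on the event that `n ≤ |C| < ∞` and `0` is
an end of a diameter of `C`. -/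
theorem result (d : ℕ) (p : NNReal) (h0 : 0 < p) (h1 : p < 1) :
    (∀ F : (Fin d → ℤ) → ℝ, DistLike F → ∀ Φ : Set (Fin d → ℤ) → Prop, Incr Φ →
      (∀ x : ℝ, 0 ≤ x →
        Perc d p h1.le (Fin' (fun C => Φ C ∧ K d p * (1 + x) < ((ends F C).ncard : ℝ))) ≤
        ENNReal.ofReal (Real.exp (-x)) * Perc d p h1.le (Fin' Φ)) ∧
      Perc d p h1.le (Fin' Φ) ≤ ∑' x : Fin d → ℤ,
        Perc d p h1.le (Fin' (fun C => 0 ∈ ends F C ∧ x ∈ C ∧ Φ {z | z + x ∈ C})) ∧
      ∑' x : Fin d → ℤ,
        Perc d p h1.le (Fin' (fun C => 0 ∈ ends F C ∧ x ∈ C ∧ Φ {z | z + x ∈ C})) ≤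
        ENNReal.ofReal (3 * K d p) * Perc d p h1.le (Fin' Φ)) ∧
    (∀ F : (Fin d → ℤ) → ℝ, DistLike F → ∀ z : Fin d → ℤ,
      Perc d p h1.le (Fin' (fun C => z ∈ C)) ≤ ∑' x : Fin d → ℤ,
        Perc d p h1.le (Fin' (fun C => 0 ∈ ends F C ∧ x ∈ C ∧ z + x ∈ C)) ∧
      ∑' x : Fin d → ℤ,
        Perc d p h1.le (Fin' (fun C => 0 ∈ ends F C ∧ x ∈ C ∧ z + x ∈ C)) ≤
        ENNReal.ofReal (3 * K d p) * Perc d p h1.le (Fin' (fun C => z ∈ C))) ∧
    (∀ F : (Fin d → ℤ) → ℝ, DistLike F → ∀ n : ℕ,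
      Perc d p h1.le (Fin' (fun C => (n : ℕ∞) ≤ C.encard)) ≤
        ∫⁻ ω in Fin' (fun C => 0 ∈ ends F C ∧ (n : ℕ∞) ≤ C.encard),
          ((cluster ω).ncard : ℝ≥0∞) ∂(Perc d p h1.le) ∧
      ∫⁻ ω in Fin' (fun C => 0 ∈ ends F C ∧ (n : ℕ∞) ≤ C.encard),
          ((cluster ω).ncard : ℝ≥0∞) ∂(Perc d p h1.le) ≤
        ENNReal.ofReal (3 * K d p) * Perc d p h1.le (Fin' (fun C => (n : ℕ∞) ≤ C.encard))) := by
  have hends : ∀ F : (Fin d → ℤ) → ℝ, DistLike F → ∀ Φ : Set (Fin d → ℤ) → Prop, Incr Φ →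
      (∀ x : ℝ, 0 ≤ x →
        Perc d p h1.le (Fin' (fun C => Φ C ∧ K d p * (1 + x) < ((ends F C).ncard : ℝ))) ≤
        ENNReal.ofReal (Real.exp (-x)) * Perc d p h1.le (Fin' Φ)) ∧
      Perc d p h1.le (Fin' Φ) ≤ ∑' x : Fin d → ℤ,
        Perc d p h1.le (Fin' (fun C => 0 ∈ ends F C ∧ x ∈ C ∧ Φ {z | z + x ∈ C})) ∧
      ∑' x : Fin d → ℤ,
        Perc d p h1.le (Fin' (fun C => 0 ∈ ends F C ∧ x ∈ C ∧ Φ {z | z + x ∈ C})) ≤
        ENNReal.ofReal (3 * K d p) * Perc d p h1.le (Fin' Φ) := by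
    intro F hF Φ hΦ
    obtain ⟨i0, -⟩ : ∃ i : Fin d × Bool, True := by
      obtain ⟨w, hw, -⟩ := hF.2 0
      obtain ⟨i, -⟩ := Run7.h647.PD.nnb_dir hw
      exact ⟨i, trivial⟩
    have hF' : Run7.h647.PD.DL F := ⟨hF.1, hF.2⟩
    have htail : ∀ x : ℝ, 0 ≤ x →
        Perc d p h1.le (Fin' (fun C => Φ C ∧ K d p * (1 + x) < ((ends F C).ncard : ℝ))) ≤
        ENNReal.ofReal (Real.exp (-x)) * Perc d p h1.le (Fin' Φ) := by
      intro x hx
      exact Run7.h647.PD.tail_zd (m := 2) (le_refl _)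
        (fun i => Run7.h647.PD.decE (Run7.h647.DM.Ls i) (Run7.h647.PD.QL_Ls hF' i)) i0
        (T := Run7.h647.PD.Ends F) (Run7.h647.PD.ends_cover hF') h0 h1 0 hΦ hx
    have hadj : ∀ u v w : Fin d → ℤ, (Run7.h647.DM.Ls i0).adj (v + u) (w + u) ↔
        (Run7.h647.DM.Ls i0).adj v w := fun u v w => Run7.h738.PC.nnb_add u v w
    have hmass := Run7.h647.PD.massT (Run7.h647.DM.Ls i0) hadj p h1.le Φ
      (T := Run7.h647.PD.Ends F) (fun C v hv => hv.1) (Run7.h647.PD.ends_trans F)
    have hmass' : ∑' x : Fin d → ℤ,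
        Perc d p h1.le (Fin' (fun C => 0 ∈ ends F C ∧ x ∈ C ∧ Φ {z | z + x ∈ C})) =
        ∑' v : Fin d → ℤ, Perc d p h1.le (Fin' (fun C => Φ C ∧ v ∈ ends F C)) := hmass
    refine ⟨htail, ?_, ?_⟩
    · rw [hmass']
      exact Run7.h647.PD.meanT_ge (Run7.h647.DM.Ls i0) (Perc d p h1.le) 0 Φ
        (T := Run7.h647.PD.Ends F) (fun C v hv => hv.1) (Run7.h647.PD.ends_ne F)
    · rw [hmass']
      exact Run7.h647.PD.meanT_le (Run7.h647.DM.Ls i0) (Perc d p h1.le) 0 Φ
        (T := Run7.h647.PD.Ends F) (fun C v hv => hv.1) (Run7.h647.PD.Kd_pos h0 h1 i0)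
        (fun j => htail j (Nat.cast_nonneg j))
  refine ⟨hends, ?_, ?_⟩
  · intro F hF z
    exact (hends F hF (fun C => z ∈ C) (fun A B hAB hz => hAB hz)).2
  · intro F hF n
    obtain ⟨i0, -⟩ : ∃ i : Fin d × Bool, True := by
      obtain ⟨w, hw, -⟩ := hF.2 0
      obtain ⟨i, -⟩ := Run7.h647.PD.nnb_dir hw
      exact ⟨i, trivial⟩
    have h := (hends F hF (fun C => (n : ℕ∞) ≤ C.encard)
      (fun A B hAB hn => hn.trans (Set.encard_le_encard hAB))).2
    have e : ∫⁻ ω in Fin' (fun C => 0 ∈ ends F C ∧ (n : ℕ∞) ≤ C.encard),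
          ((cluster ω).ncard : ℝ≥0∞) ∂(Perc d p h1.le) = ∑' x : Fin d → ℤ,
        Perc d p h1.le (Fin' (fun C => 0 ∈ ends F C ∧ x ∈ C ∧
          (n : ℕ∞) ≤ ({z | z + x ∈ C} : Set (Fin d → ℤ)).encard)) := by
      have h2 := Run7.h738.PC.sum_vol (Run7.h647.DM.Ls i0) (Perc d p h1.le) 0
        (fun C => 0 ∈ ends F C ∧ (n : ℕ∞) ≤ C.encard)
      refine h2.symm.trans (tsum_congr fun x => ?_)
      congr 1
      ext ω
      have h3 : ({z | z + x ∈ cluster ω} : Set (Fin d → ℤ)).encard = (cluster ω).encard := by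
        have h4 : {z | z + x ∈ cluster ω} = (fun z => z + x) ⁻¹' (cluster ω) := rfl
        rw [h4, ← (add_left_injective x).encard_image, Set.image_preimage_eq _
          (fun w => ⟨w - x, sub_add_cancel w x⟩)]
      show (cluster ω).Finite ∧ ((0 ∈ ends F (cluster ω) ∧ _) ∧ x ∈ cluster ω) ↔
        (cluster ω).Finite ∧ (0 ∈ ends F (cluster ω) ∧ x ∈ cluster ω ∧ _)
      rw [h3]
      tauto
    rw [e]
    exact h

end Pool.Agent.Results.MP_54f242_pr.DiametralPoints
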