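import Pool.Agent.Run7.h738.PC.Vol

/-!
# Percolation clusters have few extremal points, and clusters in a half-space

Bond percolation on `ℤ^d`, every `d ≥ 1`, every `0 < p < 1` (the critical parameter included).
-/

set_option autoImplicit false
set_option linter.deprecated false

namespace Pool.Agent.Results.MP_54f242_pr.ExtremalPoints

open scoped ENNReal
open MeasureTheory

/-- `v` and `w` are nearest neighbours in `ℤ^d` -/
def Nb {d : ℕ} (v w : Fin d → ℤ) : Prop := ∑ i, |w i - v i| = 1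

/-- Bernoulli bond percolation with parameter `p`: independent states of the pairs of points; the
bonds are the pairs of nearest neighbours, the states of the other pairs are not used -/
noncomputable def Perc (d : ℕ) (p : NNReal) (hp : p ≤ 1) : Measure (Sym2 (Fin d → ℤ) → Bool) :=
  Measure.infinitePi (fun _ : Sym2 (Fin d → ℤ) => (PMF.bernoulli p hp).toMeasure)

/-- the open cluster of `0` -/
def cluster {d : ℕ} (ω : Sym2 (Fin d → ℤ) → Bool) : Set (Fin d → ℤ) :=
  {x | Relation.ReflTransGen (fun v w => Nb v w ∧ ω s(v, w) = true) 0 x}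

/-- the event that the cluster of `0` is finite and has the property `Φ` -/
def Fin' {d : ℕ} (Φ : Set (Fin d → ℤ) → Prop) : Set (Sym2 (Fin d → ℤ) → Bool) :=
  {ω | (cluster ω).Finite ∧ Φ (cluster ω)}

/-- the points of `C` within distance `y` of the supporting hyperplane of `C` with outer normal
`s e_j` (`s = 1` or `s = -1`) -/
def near {d : ℕ} (j : Fin d) (s : ℤ) (y : ℕ) (C : Set (Fin d → ℤ)) : Set (Fin d → ℤ) :=
  {v | v ∈ C ∧ ∀ w ∈ C, s * w j ≤ s * v j + y}

/-- `C` is a subset of the half-space `s w_j ≤ y` -/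
def InHalfSpace {d : ℕ} (j : Fin d) (s : ℤ) (y : ℕ) (C : Set (Fin d → ℤ)) : Prop :=
  ∀ w ∈ C, s * w j ≤ y

/-- the constant -/
noncomputable def K (d : ℕ) (p : NNReal) : ℝ := 10 / ((p : ℝ) * (1 - p) ^ (2 * d))

/-- **Extremal points of percolation clusters.** Bond percolation on `ℤ^d`, `0 < p < 1`,
`K = 10 / (p (1 - p)^(2 d))`, `C` the cluster of `0`, `s e_j` a coordinate direction, `y ∈ ℕ`.

1. Let `Φ` be any increasing property of the cluster (for instance `z ∈ C`, or `|C| ≥ n`). Given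
that `C` is finite and has the property `Φ`, the number of points of `C` within distance `y` of its
supporting hyperplane is larger than `K ^ (1 + y) (1 + x)` with probability at most `exp (-x)`.

2. The sum over `x` of the probabilities that `C` is finite, contained in the half-space
`s w_j ≤ y`, contains `x`, and `C - x` has the property `Φ`, is at least `P (C finite, Φ C)` and at
most `3 K ^ (1 + y)` times this probability.

3. In particular, for `y = 0`, `Φ C = (z ∈ C)`: the truncated two-point function `P (0 ↔ z, C finite)`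
is comparable to the sum over `x` of `P (x ∈ C, x + z ∈ C, C finite, C in the half-space)`.

4. For `y = 0`, `Φ C = (|C| ≥ n)`: `P (n ≤ |C| < ∞)` is comparable to the mean of `|C|` on the event
that `n ≤ |C| < ∞` and `C` is contained in the half-space. -/
theorem result (d : ℕ) (p : NNReal) (h0 : 0 < p) (h1 : p < 1) (j : Fin d) (s : ℤ)
    (hs : s = 1 ∨ s = -1) :
    (∀ Φ : Set (Fin d → ℤ) → Prop, (∀ A B, A ⊆ B → Φ A → Φ B) → ∀ y : ℕ,
      (∀ x : ℝ, 0 ≤ x →
        Perc d p h1.le (Fin' (fun C => Φ C ∧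
          K d p ^ (1 + y) * (1 + x) < ((near j s y C).ncard : ℝ))) ≤
        ENNReal.ofReal (Real.exp (-x)) * Perc d p h1.le (Fin' Φ)) ∧
      Perc d p h1.le (Fin' Φ) ≤ ∑' x : Fin d → ℤ,
        Perc d p h1.le (Fin' (fun C => InHalfSpace j s y C ∧ x ∈ C ∧ Φ {z | z + x ∈ C})) ∧
      ∑' x : Fin d → ℤ,
        Perc d p h1.le (Fin' (fun C => InHalfSpace j s y C ∧ x ∈ C ∧ Φ {z | z + x ∈ C})) ≤
        ENNReal.ofReal (3 * K d p ^ (1 + y)) * Perc d p h1.le (Fin' Φ)) ∧
    (∀ z : Fin d → ℤ,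
      Perc d p h1.le (Fin' (fun C => z ∈ C)) ≤ ∑' x : Fin d → ℤ,
        Perc d p h1.le (Fin' (fun C => InHalfSpace j s 0 C ∧ x ∈ C ∧ z + x ∈ C)) ∧
      ∑' x : Fin d → ℤ,
        Perc d p h1.le (Fin' (fun C => InHalfSpace j s 0 C ∧ x ∈ C ∧ z + x ∈ C)) ≤
        ENNReal.ofReal (3 * K d p) * Perc d p h1.le (Fin' (fun C => z ∈ C))) ∧
    (∀ n : ℕ,
      Perc d p h1.le (Fin' (fun C => (n : ℕ∞) ≤ C.encard)) ≤
        ∫⁻ ω in Fin' (fun C => InHalfSpace j s 0 C ∧ (n : ℕ∞) ≤ C.encard),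
          ((cluster ω).ncard : ℝ≥0∞) ∂(Perc d p h1.le) ∧
      ∫⁻ ω in Fin' (fun C => InHalfSpace j s 0 C ∧ (n : ℕ∞) ≤ C.encard),
          ((cluster ω).ncard : ℝ≥0∞) ∂(Perc d p h1.le) ≤
        ENNReal.ofReal (3 * K d p) * Perc d p h1.le (Fin' (fun C => (n : ℕ∞) ≤ C.encard))) := by
  have hadj : ∀ u v w : Fin d → ℤ, (Run7.h738.EX.zd j s hs).adj (v + u) (w + u) ↔
      (Run7.h738.EX.zd j s hs).adj v w := fun u v w => Run7.h738.PC.nnb_add u v w
  have hh : ∀ u v : Fin d → ℤ, (Run7.h738.EX.zd j s hs).h (v + u) =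
      (Run7.h738.EX.zd j s hs).h v + (Run7.h738.EX.zd j s hs).h u := by
    intro u v
    show s * (v + u) j = s * v j + s * u j
    rw [Pi.add_apply]
    ring
  have hmass : ∀ Φ : Set (Fin d → ℤ) → Prop, (∀ A B, A ⊆ B → Φ A → Φ B) → ∀ y : ℕ,
      Perc d p h1.le (Fin' Φ) ≤ ∑' x : Fin d → ℤ,
        Perc d p h1.le (Fin' (fun C => InHalfSpace j s y C ∧ x ∈ C ∧ Φ {z | z + x ∈ C})) ∧
      ∑' x : Fin d → ℤ,
        Perc d p h1.le (Fin' (fun C => InHalfSpace j s y C ∧ x ∈ C ∧ Φ {z | z + x ∈ C})) ≤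
        ENNReal.ofReal (3 * K d p ^ (1 + y)) * Perc d p h1.le (Fin' Φ) := by
    intro Φ hΦ y
    exact Run7.h738.PC.mass (Run7.h738.EX.zd j s hs) hadj hh h0 h1 hΦ y
  refine ⟨?_, ?_, ?_⟩
  · intro Φ hΦ y
    refine ⟨?_, hmass Φ hΦ y⟩
    intro x hx
    exact Run7.h738.PC.tail_perc (Run7.h738.EX.zd j s hs) h0 h1 0 hΦ y hx
  · intro z
    have h := hmass (fun C => z ∈ C) (fun A B hAB hz => hAB hz) 0
    rw [Nat.add_zero, pow_one] at h
    exact h
  · intro n
    have h := hmass (fun C => (n : ℕ∞) ≤ C.encard)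
      (fun A B hAB hn => hn.trans (Set.encard_le_encard hAB)) 0
    rw [Nat.add_zero, pow_one] at h
    have e : ∫⁻ ω in Fin' (fun C => InHalfSpace j s 0 C ∧ (n : ℕ∞) ≤ C.encard),
          ((cluster ω).ncard : ℝ≥0∞) ∂(Perc d p h1.le) = ∑' x : Fin d → ℤ,
        Perc d p h1.le (Fin' (fun C => InHalfSpace j s 0 C ∧ x ∈ C ∧
          (n : ℕ∞) ≤ ({z | z + x ∈ C} : Set (Fin d → ℤ)).encard)) := by
      have h2 := Run7.h738.PC.sum_vol (Run7.h738.EX.zd j s hs) (Perc d p h1.le) 0
        (fun C => InHalfSpace j s 0 C ∧ (n : ℕ∞) ≤ C.encard)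
      refine h2.symm.trans (tsum_congr fun x => ?_)
      congr 1
      ext ω
      have h3 : ({z | z + x ∈ cluster ω} : Set (Fin d → ℤ)).encard = (cluster ω).encard := by
        have h4 : {z | z + x ∈ cluster ω} = (fun z => z + x) ⁻¹' (cluster ω) := rfl
        rw [h4, ← (add_left_injective x).encard_image, Set.image_preimage_eq _
          (fun w => ⟨w - x, sub_add_cancel w x⟩)]
      show (cluster ω).Finite ∧ ((InHalfSpace j s 0 (cluster ω) ∧ _) ∧ x ∈ cluster ω) ↔
        (cluster ω).Finite ∧ (InHalfSpace j s 0 (cluster ω) ∧ x ∈ cluster ω ∧ _)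
      rw [h3]
      tauto
    rw [e]
    exact h

end Pool.Agent.Results.MP_54f242_pr.ExtremalPoints
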