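import Pool.Agent.Run7.h976.IR.Ae

/-!
# The infrared bound of percolation for almost every wave vector, with a logarithmic loss

Bond percolation on `ℤ^d`, every `d ≥ 1`; `G_p(k) = τ̂_p(k) (1 - D̂(k))`. All parameters are coupled
by independent uniform labels of the edges. The part in a box of the cluster of a point increases
with `p`, and `τ̂_p(k)` is the limit of the averages of `|∑_{y ∈ C} exp (i k · y)|² / |C|`, `C` the
part of the cluster in the box. The inequality of Rademacher and Menshov, in every dyadic range of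
the size of `C`, gives a majorant of `sup_p τ̂_p(k)` whose mean over the wave vectors is at most a
power of the logarithm of the susceptibility; with Fejér weights it gives the mean over small boxes
around the origin.
-/

set_option autoImplicit false

namespace Pool.Agent.Results.MP_54f242_pr.MaximalInfrared

open MeasureTheory Filter Topology
open Pool.Agent.Results.MP_54f242_pr.InfraredMean
open Run7.h976.IR

/-- the box `(-n, n)^d` -/
noncomputable def boxn (d n : ℕ) : Finset (Fin d → ℤ) :=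
  Fintype.piFinset (fun _ => Finset.Ioo (-(n : ℤ)) n)

/-- the wave vectors with `|k_i| ≤ 1 / (d n)` -/
def near (d n : ℕ) : Set (Fin d → ℝ) := {k | ∀ i, |k i| ≤ 1 / ((d : ℝ) * n)}

/-- A maximal inequality for `G_p(k)` over the parameter `p`, on the whole cube and near the origin,
and the infrared bound for almost every wave vector with a logarithmic loss, or without loss under
a bound of the tails of the cluster size. -/
theorem result (d : ℕ) (hd : 1 ≤ d) :
    (∀ (X : ℝ) (J : ℕ), X ≤ 2 ^ J → ∃ g : (Fin d → ℝ) → ℝ, Continuous g ∧ (∀ k, 0 ≤ g k) ∧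
      (∀ (p : NNReal) (hp : p ≤ 1), Summable (tau d p hp) → chi d p hp ≤ X → ∀ k,
        G d p hp k ≤ g k) ∧
      ∫ k in cube d, g k ≤ 54 * ((J : ℝ) + 1) ^ 3 * volume.real (cube d)) ∧
    (∀ᵐ k : Fin d → ℝ, k ∈ cube d → ∃ C : ℝ, ∀ (p : NNReal) (hp : p ≤ 1),
      Summable (tau d p hp) →
        G d p hp k ≤ C * ((1 + Real.log (chi d p hp)) ^ 3 *
          (1 + Real.log (1 + Real.log (chi d p hp))) ^ 2)) ∧
    (∀ (n : ℕ) (X b : ℝ) (J : ℕ), 1 ≤ n → 1 ≤ X → (2 * (n : ℝ)) ^ d * X ≤ 2 ^ J →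
      (∀ (p : NNReal) (hp : p ≤ 1), Summable (tau d p hp) → chi d p hp ≤ X →
        ∑ x ∈ boxn d n, tau d p hp x ≤ b) →
      ∃ g : (Fin d → ℝ) → ℝ, Continuous g ∧ (∀ k, 0 ≤ g k) ∧
        (∀ (p : NNReal) (hp : p ≤ 1), Summable (tau d p hp) → chi d p hp ≤ X →
          ∀ k ∈ near d n, G d p hp k ≤ g k) ∧
        ∫ k in near d n, g k ≤ 53 * (Real.pi * d) ^ d * ((J : ℝ) + 1) ^ 3 *
          (b / ((d : ℝ) * n) ^ 2) * volume.real (near d n)) ∧
    (∀ K : ℝ, (∀ (p : NNReal) (hp : p ≤ 1), Summable (tau d p hp) → ∀ J : ℕ,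
      ∑ j ∈ Finset.range J, ((j : ℝ) + 1) ^ 2 *
        (P d p hp).real {ω | ((2 ^ j : ℕ) : ℕ∞) ≤ {x | (opn ω).Reachable 0 x}.encard} ≤ K) →
      ∀ᵐ k : Fin d → ℝ, k ∈ cube d → ∃ B : ℝ, ∀ (p : NNReal) (hp : p ≤ 1),
        Summable (tau d p hp) → G d p hp k ≤ B) := by
  refine ⟨fun X J hJ => maj_cube X J hJ, ae_log, fun n X b J hn hX hJ hb => ?_,
    fun K hK => ae_tail K hK⟩
  have hb' : ∀ a : Par d, ch a ≤ X → ∑ x ∈ sbox d n, tf a x ≤ b := fun a ha =>
    hb a.1 a.2.choose a.2.choose_spec ha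
  have hb1 : 1 ≤ b := by
    have h1 := hb' (p0 d) (by rw [ch_p0]; exact hX)
    have h2 : (0 : Fin d → ℤ) ∈ sbox d n := by
      rw [sbox, Fintype.mem_piFinset]
      intro i
      rw [Finset.mem_Ioo, Pi.zero_apply]
      omega
    have h3 : tf (p0 d) 0 = 1 := tau_zero _ _
    rw [← h3]
    exact (Finset.single_le_sum (f := tf (p0 d)) (fun x _ => tf_nonneg _ x) h2).trans h1
  exact maj_loc hd n hn X b hb1 J hJ (zero_le_one.trans hX) hb'

end Pool.Agent.Results.MP_54f242_pr.MaximalInfrared
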