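import Pool.Agent.Run7.h647.PD.Zd

/-!
# Percolation clusters: the points of maximal value of a function

Bond percolation on `ℤ^d`, every `d ≥ 1`, every `0 < p < 1` (the critical parameter included). The
points of the cluster where an arbitrary function is maximal.

Proof. At a point `v` of the cluster `C` at which `f` is maximal on `C` and such that `f` is larger at
the neighbour `w` of `v`, open the edge `v w` and close the other edges of `w`. This can be done at
the same time at all the selected points for which `w` is in a fixed direction from `v`. The old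
cluster is recovered: a point of the new cluster at which `f` is maximal is one of the new points,
hence it gives one of the points `v`, and the old cluster consists of the points of the new one at
which `f` is at most `f v`.
-/

set_option autoImplicit false
set_option linter.deprecated false

namespace Pool.Agent.Results.MP_54f242_pr.MaximalPoints

open scoped ENNReal
open MeasureTheory

/-- `v` and `w` are nearest neighbours in `ℤ^d` -/
def Nb {d : ℕ} (v w : Fin d → ℤ) : Prop := ∑ i, |w i - v i| = 1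

/-- Bernoulli bond percolation with parameter `p`: independent states of the pairs of points; the
bonds are the pairs of nearest neighbours, the states of the other pairs are not used -/
noncomputable def Perc (d : ℕ) (p : NNReal) (hp : p ≤ 1) : Measure (Sym2 (Fin d → ℤ) → Bool) :=
  Measure.infinitePi (fun _ : Sym2 (Fin d → ℤ) => (PMF.bernoulli p hp).toMeasure)

/-- the open cluster of `0` -/
def cluster {d : ℕ} (ω : Sym2 (Fin d → ℤ) → Bool) : Set (Fin d → ℤ) :=
  {x | Relation.ReflTransGen (fun v w => Nb v w ∧ ω s(v, w) = true) 0 x}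

/-- the event that the cluster of `0` is finite and has the property `Φ` -/
def Fin' {d : ℕ} (Φ : Set (Fin d → ℤ) → Prop) : Set (Sym2 (Fin d → ℤ) → Bool) :=
  {ω | (cluster ω).Finite ∧ Φ (cluster ω)}

/-- increasing properties -/
def Incr {d : ℕ} (Φ : Set (Fin d → ℤ) → Prop) : Prop := ∀ A B, A ⊆ B → Φ A → Φ B

/-- the points of `C` at which `f` is maximal on `C` -/
def maxi {d : ℕ} (f : (Fin d → ℤ) → ℝ) (C : Set (Fin d → ℤ)) : Set (Fin d → ℤ) :=
  {v | v ∈ C ∧ ∀ w ∈ C, f w ≤ f v}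

/-- the points of `C` at which `f` is maximal on `C`, and which are not local maxima of `f` -/
def strict {d : ℕ} (f : (Fin d → ℤ) → ℝ) (C : Set (Fin d → ℤ)) : Set (Fin d → ℤ) :=
  {v | v ∈ maxi f C ∧ ∃ w, Nb v w ∧ f v < f w}

/-- `f` has no local maximum: every point has a neighbour at which `f` is larger. For instance
`f v = N (v - z)` for a norm `N` of `ℝ^d` and `z ∈ ℝ^d`, or `f v = ⟨u, v⟩` with `u ∈ ℝ^d`,
`u ≠ 0`. -/
def NoLocalMax {d : ℕ} (f : (Fin d → ℤ) → ℝ) : Prop := ∀ v, ∃ w, Nb v w ∧ f v < f w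

/-- the constant -/
noncomputable def K (d : ℕ) (p : NNReal) : ℝ := 30 * (d : ℝ) ^ 2 / ((p : ℝ) * (1 - p) ^ (2 * d))

/-- **Points of percolation clusters at which a function is maximal.** Bond percolation on `ℤ^d`,
`d ≥ 1`, `0 < p < 1`, `K = 30 d² / (p (1 - p)^(2 d))`, `C` the cluster of `0`, `Φ` any increasing
property of the cluster.

1. Let `f` be any function on `ℤ^d`. Given that `C` is finite and has the property `Φ`, the number of
the points of `C` at which `f` is maximal on `C` and which are not local maxima of `f` is larger than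
`K (1 + x)` with probability at most `exp (-x)`; its mean is at most `3 K`. (For instance
`f v = -|v - z|`: the points of `C` closest to a point `z ∉ C`.)

2. Let `f` have no local maxima. Then
`P (C finite, Φ C) ≤ ∑_v P (C finite, Φ C, v ∈ C ⊆ {f ≤ f v}) ≤ 3 K P (C finite, Φ C)`.

3. In particular `P (C finite, max_C f ≥ r)` is comparable to the sum over the `v` with `f v ≥ r` of
the probabilities that `C` is finite and `v ∈ C ⊆ {f ≤ f v}`. (For `f` a norm: the truncated one-arm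
probability and the two-point function confined to the ball of radius `f v`.) -/
theorem result (d : ℕ) (hd : 1 ≤ d) (p : NNReal) (h0 : 0 < p) (h1 : p < 1) :
    (∀ f : (Fin d → ℤ) → ℝ, ∀ Φ : Set (Fin d → ℤ) → Prop, Incr Φ →
      (∀ x : ℝ, 0 ≤ x →
        Perc d p h1.le (Fin' (fun C => Φ C ∧ K d p * (1 + x) < ((strict f C).ncard : ℝ))) ≤
        ENNReal.ofReal (Real.exp (-x)) * Perc d p h1.le (Fin' Φ)) ∧
      ∑' v, Perc d p h1.le (Fin' (fun C => Φ C ∧ v ∈ strict f C)) ≤
        ENNReal.ofReal (3 * K d p) * Perc d p h1.le (Fin' Φ)) ∧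
    (∀ f : (Fin d → ℤ) → ℝ, NoLocalMax f → ∀ Φ : Set (Fin d → ℤ) → Prop, Incr Φ →
      Perc d p h1.le (Fin' Φ) ≤ ∑' v, Perc d p h1.le (Fin' (fun C => Φ C ∧ v ∈ maxi f C)) ∧
      ∑' v, Perc d p h1.le (Fin' (fun C => Φ C ∧ v ∈ maxi f C)) ≤
        ENNReal.ofReal (3 * K d p) * Perc d p h1.le (Fin' Φ)) ∧
    (∀ f : (Fin d → ℤ) → ℝ, NoLocalMax f → ∀ r : ℝ,
      Perc d p h1.le (Fin' (fun C => ∃ v ∈ C, r ≤ f v)) ≤
        ∑' v : {v // r ≤ f v}, Perc d p h1.le (Fin' (fun C => v.1 ∈ C ∧ ∀ w ∈ C, f w ≤ f v.1)) ∧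
      ∑' v : {v // r ≤ f v}, Perc d p h1.le (Fin' (fun C => v.1 ∈ C ∧ ∀ w ∈ C, f w ≤ f v.1)) ≤
        ENNReal.ofReal (3 * K d p) * Perc d p h1.le (Fin' (fun C => ∃ v ∈ C, r ≤ f v))) := by
  obtain ⟨i0⟩ : Nonempty (Fin d × Bool) := ⟨(⟨0, hd⟩, true)⟩
  have hstrict : ∀ f : (Fin d → ℤ) → ℝ, ∀ Φ : Set (Fin d → ℤ) → Prop, Incr Φ →
      (∀ x : ℝ, 0 ≤ x →
        Perc d p h1.le (Fin' (fun C => Φ C ∧ K d p * (1 + x) < ((strict f C).ncard : ℝ))) ≤
        ENNReal.ofReal (Real.exp (-x)) * Perc d p h1.le (Fin' Φ)) ∧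
      ∑' v, Perc d p h1.le (Fin' (fun C => Φ C ∧ v ∈ strict f C)) ≤
        ENNReal.ofReal (3 * K d p) * Perc d p h1.le (Fin' Φ) := by
    intro f Φ hΦ
    have htail : ∀ x : ℝ, 0 ≤ x →
        Perc d p h1.le (Fin' (fun C => Φ C ∧ K d p * (1 + x) < ((strict f C).ncard : ℝ))) ≤
        ENNReal.ofReal (Real.exp (-x)) * Perc d p h1.le (Fin' Φ) := by
      intro x hx
      refine Run7.h647.PD.tail_zd (m := 1) (by norm_num)
        (fun i => Run7.h647.PD.decR (Run7.h647.DM.Ls i) f) i0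
        (T := strict f) ?_ h0 h1 0 hΦ hx
      rintro A v ⟨⟨g1, g2⟩, w, g3, g4⟩
      obtain ⟨i, rfl⟩ := Run7.h647.PD.nnb_dir g3
      exact ⟨i, (Run7.h647.PD.mem_GR (Run7.h647.DM.Ls i)).2
        ⟨Finset.mem_coe.1 g1, fun w hw => g2 w (Finset.mem_coe.2 hw), g4⟩⟩
    refine ⟨htail, ?_⟩
    exact Run7.h647.PD.meanT_le (Run7.h647.DM.Ls i0) (Perc d p h1.le) 0 Φ
        (T := strict f) (fun C v hv => hv.1.1) (Run7.h647.PD.Kd_pos h0 h1 i0)
        (fun j => htail j (Nat.cast_nonneg j))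
  have heq : ∀ f : (Fin d → ℤ) → ℝ, NoLocalMax f → strict f = maxi f := by
    intro f hf
    funext C
    ext v
    exact ⟨fun h => h.1, fun h => ⟨h, hf v⟩⟩
  have hmaxi : ∀ f : (Fin d → ℤ) → ℝ, NoLocalMax f → ∀ Φ : Set (Fin d → ℤ) → Prop, Incr Φ →
      Perc d p h1.le (Fin' Φ) ≤ ∑' v, Perc d p h1.le (Fin' (fun C => Φ C ∧ v ∈ maxi f C)) ∧
      ∑' v, Perc d p h1.le (Fin' (fun C => Φ C ∧ v ∈ maxi f C)) ≤
        ENNReal.ofReal (3 * K d p) * Perc d p h1.le (Fin' Φ) := by
    intro f hf Φ hΦ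
    refine ⟨?_, ?_⟩
    · exact Run7.h647.PD.meanT_ge (Run7.h647.DM.Ls i0) (Perc d p h1.le) 0 Φ
        (T := Run7.h647.PD.Maxi f) (fun C v hv => hv.1) (Run7.h647.PD.maxi_ne f)
    · have h2 := (hstrict f Φ hΦ).2
      rw [heq f hf] at h2
      exact h2
  refine ⟨hstrict, hmaxi, ?_⟩
  intro f hf r
  have hΦ : Incr (fun C : Set (Fin d → ℤ) => ∃ v ∈ C, r ≤ f v) :=
    fun A B hAB ⟨v, hv, h⟩ => ⟨v, hAB hv, h⟩
  have h2 := hmaxi f hf _ hΦ
  have e : ∑' v, Perc d p h1.le (Fin' (fun C => (∃ v ∈ C, r ≤ f v) ∧ v ∈ maxi f C)) =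
      ∑' v : {v // r ≤ f v}, Perc d p h1.le (Fin' (fun C => v.1 ∈ C ∧ ∀ w ∈ C, f w ≤ f v.1)) := by
    refine Eq.trans ?_ (tsum_subtype {v | r ≤ f v}
      (fun v => Perc d p h1.le (Fin' (fun C => v ∈ C ∧ ∀ w ∈ C, f w ≤ f v)))).symm
    refine tsum_congr fun v => ?_
    by_cases hv : r ≤ f v
    · rw [Set.indicator_of_mem (show v ∈ {v | r ≤ f v} from hv)]
      congr 2
      funext C
      apply propext
      exact ⟨fun h => h.2, fun h => ⟨⟨v, h.1, hv⟩, h⟩⟩
    · rw [Set.indicator_of_notMem (show v ∉ {v | r ≤ f v} from hv)]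
      have : Fin' (fun C : Set (Fin d → ℤ) => (∃ v ∈ C, r ≤ f v) ∧ v ∈ maxi f C) = ∅ := by
        rw [Set.eq_empty_iff_forall_notMem]
        rintro ω ⟨-, ⟨w, hw, h3⟩, h4⟩
        exact hv (h3.trans (h4.2 w hw))
      rw [this, measure_empty]
  rw [e] at h2
  exact h2

end Pool.Agent.Results.MP_54f242_pr.MaximalPoints
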